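import Pool.Agent.R254.Cheese.NotR

/-! A compact plane set `X` with dense interior such that `A⁽¹⁾(X)` is not contained in `R(X)`. -/

set_option autoImplicit false

namespace Pool.Agent.Results.MP_a6d22b_an.NotContained

open Pool.Agent.R254.Cheese

theorem result : ∃ X : Set ℂ, X.Nonempty ∧ IsCompact X ∧ closure (interior X) = X ∧
    ¬ A1 X ⊆ R X := by
  refine ⟨XX, ⟨1, KK_sub (unit_sub_KK (by simp))⟩, isCompact_XX, ?_, fun h => ?_⟩
  · exact Set.Subset.antisymm (isCompact_XX.isClosed.closure_subset_iff.2 interior_subset) dense_int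
  · exact ff_not_mem ff_cont (h (ff_mem_A1 ff_cont))

end Pool.Agent.Results.MP_a6d22b_an.NotContained
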